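import Mathlib
import Pool.Agent.H572R2.AndSim

set_option autoImplicit false

namespace Pool.Agent.Results.MP_799357_lc.LeadingOnes

open Pool.Agent.H572R2.AndComm

/-- A real polynomial is bounded on the natural numbers by a multiple of a power. -/
theorem poly_bound (P : Polynomial ℝ) :
    ∃ (C : ℝ) (k : ℕ), 0 ≤ C ∧ ∀ t : ℕ, |P.eval (t : ℝ)| ≤ C * ((t : ℝ) + 1) ^ k := by
  refine ⟨∑ i ∈ Finset.range (P.natDegree + 1), |P.coeff i|, P.natDegree,
    Finset.sum_nonneg (fun i _ => abs_nonneg _), ?_⟩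
  intro t
  rw [Polynomial.eval_eq_sum_range, Finset.sum_mul]
  refine (Finset.abs_sum_le_sum_abs _ _).trans (Finset.sum_le_sum ?_)
  intro i hi
  rw [Finset.mem_range] at hi
  rw [abs_mul]
  apply mul_le_mul_of_nonneg_left _ (abs_nonneg _)
  have ht : (0 : ℝ) ≤ t := Nat.cast_nonneg t
  rw [abs_of_nonneg (by positivity)]
  calc (t : ℝ) ^ i ≤ ((t : ℝ) + 1) ^ i := by
        apply pow_le_pow_left₀ ht
        linarith
    _ ≤ ((t : ℝ) + 1) ^ P.natDegree := by
        apply pow_le_pow_right₀ (by linarith)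
        omega

/-- **Deterministic communication complexity of AND-composed functions is not polynomially bounded
in their entanglement-assisted quantum communication complexity.**  The first part is the negative
answer to Q1.  The second part is explicit: with `n = 2^(2^L) - 1`, some `f` has
`D(F) ≥ 2^L - 1`, `R_{1/3}(F) ≤ 4L²+2` and `Q*_{1/3}(F) ≤ 8L²+4` for `F(x,y) = f(x ∧ y)`. -/
theorem result :
    (¬ ∃ P : Polynomial ℝ, ∀ n : ℕ, 1 ≤ n → ∀ f : (Fin n → Bool) → Bool,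
        (detCC (andFn f) : ℝ) ≤ P.eval (qstar (andFn f) : ℝ)) ∧
    (∀ L : ℕ, 2 ≤ L → ∃ f : (Fin (2 ^ 2 ^ L - 1) → Bool) → Bool,
        2 ^ L - 1 ≤ detCC (andFn f) ∧ randCC (andFn f) ≤ 4 * L ^ 2 + 2 ∧
          qstar (andFn f) ≤ 8 * L ^ 2 + 4) := by
  constructor
  · rintro ⟨P, hP⟩
    obtain ⟨C, k, hC, hb⟩ := poly_bound P
    have h1 : Filter.Tendsto (fun L : ℕ => (C * 13 ^ k + 1) * ((L : ℝ) ^ (2 * k) / 2 ^ L))
        Filter.atTop (nhds ((C * 13 ^ k + 1) * 0)) :=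
      (tendsto_pow_const_div_const_pow_of_one_lt (2 * k) (by norm_num : (1 : ℝ) < 2)).const_mul _
    rw [mul_zero] at h1
    have h2 := (h1.eventually (gt_mem_nhds (by norm_num : (0 : ℝ) < 1 / 2))).and
      (Filter.eventually_ge_atTop 2)
    obtain ⟨L, hL1, hL2⟩ := h2.exists
    have hn : 1 ≤ 2 ^ 2 ^ L - 1 := by
      have : 2 ^ 1 ≤ 2 ^ 2 ^ L := Nat.pow_le_pow_right (by norm_num) Nat.one_le_two_pow
      omega
    have h3 := hP (2 ^ 2 ^ L - 1) hn (fL _)
    have h4 := det_lower2 L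
    have h5 := qstar_upper L hL2
    have h6 := (le_abs_self _).trans (hb (qstar (andFn (fL (2 ^ 2 ^ L - 1)))))
    have hLr : (2 : ℝ) ≤ L := by exact_mod_cast hL2
    have h7 : ((qstar (andFn (fL (2 ^ 2 ^ L - 1))) : ℝ) + 1) ^ k ≤ 13 ^ k * (L : ℝ) ^ (2 * k) := by
      have h8 : (qstar (andFn (fL (2 ^ 2 ^ L - 1))) : ℝ) ≤ 8 * (L : ℝ) ^ 2 + 4 := by
        exact_mod_cast h5
      rw [pow_mul, ← mul_pow]
      apply pow_le_pow_left₀ (by positivity)
      nlinarith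
    have h9 : ((2 ^ L - 1 : ℕ) : ℝ) ≤ detCC (andFn (fL (2 ^ 2 ^ L - 1))) := by exact_mod_cast h4
    have h10 : ((2 ^ L - 1 : ℕ) : ℝ) = 2 ^ L - 1 := by
      rw [Nat.cast_sub Nat.one_le_two_pow]
      push_cast
      ring
    rw [h10] at h9
    have hpow : (0 : ℝ) < 2 ^ L := by positivity
    have h11 : (C * 13 ^ k + 1) * (L : ℝ) ^ (2 * k) < 1 / 2 * 2 ^ L := by
      rw [← mul_div_assoc, div_lt_iff₀ hpow] at hL1
      exact hL1
    have h12 : (1 : ℝ) ≤ (L : ℝ) ^ (2 * k) := one_le_pow₀ (by linarith)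
    have h13 : C * ((qstar (andFn (fL (2 ^ 2 ^ L - 1))) : ℝ) + 1) ^ k
        ≤ C * (13 ^ k * (L : ℝ) ^ (2 * k)) := mul_le_mul_of_nonneg_left h7 hC
    nlinarith
  · intro L hL
    exact ⟨fL _, det_lower2 L, randCC_upper L hL, qstar_upper L hL⟩

end Pool.Agent.Results.MP_799357_lc.LeadingOnes
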